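import Mathlib

/-!
The generalized free product as the quotient of the free product, in the words of problem
MP_aade38_al.
-/

set_option autoImplicit false

namespace Pool.Agent.Helper22.AMX

universe u v

section

variable {A : Type u} {B : Type v} [Group A] [Group B] (C : Subgroup A) (φ : C →* B)

/-- the normal subgroup of the free product `A * B` generated by the elements `c⁻¹ φ(c)`, `c ∈ C` -/
def amalgKernel : Subgroup (Monoid.Coprod A B) :=
  Subgroup.normalClosure {x | ∃ c : C, x = (Monoid.Coprod.inl (c : A))⁻¹ * Monoid.Coprod.inr (φ c)}

instance : (amalgKernel C φ).Normal := Subgroup.normalClosure_normal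

/-- the generalized free product `A *_C B`, amalgamating `c` with `φ(c)` -/
abbrev GenFreeProduct : Type (max u v) := Monoid.Coprod A B ⧸ amalgKernel C φ

end

/-- no subgroup is maximal: every `M ≠ Q` lies strictly below another proper subgroup -/
def HasNoMaximalSubgroup (Q : Type u) [Group Q] : Prop :=
  ∀ M : Subgroup Q, M ≠ ⊤ → ∃ H : Subgroup Q, M < H ∧ H < ⊤

end Pool.Agent.Helper22.AMX
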