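import Pool.Agent.Helper22.AMX.Red
import Pool.Agent.Helper22.AMX.Def

/-!
From `Monoid.PushoutI` over `Bool` to the quotient of the free product of two groups, and the
cardinality of the groups of `Helper62.Amal`.
-/

set_option autoImplicit false

namespace Pool.Agent.Helper22.AMX

open Pool.Agent.Helper62.Amal

section quot

variable {G : Bool → Type} [∀ i, Group (G i)] {H : Type} [Group H] (φ : ∀ i, H →* G i)
  (hinj : Function.Injective (φ true))

/-- the gluing homomorphism from the image of `H` in `G true` to `G false` -/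
noncomputable def glue : (φ true).range →* G false :=
  (φ false).comp (MonoidHom.ofInjective hinj).symm.toMonoidHom

theorem glue_apply (x : H) : glue φ hinj ⟨φ true x, x, rfl⟩ = φ false x := by
  show φ false ((MonoidHom.ofInjective hinj).symm _) = _
  congr 1
  rw [MulEquiv.symm_apply_eq]
  rfl

theorem glue_injective (hinj' : Function.Injective (φ false)) :
    Function.Injective (glue φ hinj) :=
  hinj'.comp (MonoidHom.ofInjective hinj).symm.injective

theorem glue_range : (glue φ hinj).range = (φ false).range := by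
  apply le_antisymm
  · rintro _ ⟨⟨_, x, rfl⟩, rfl⟩
    exact ⟨x, (glue_apply φ hinj x).symm⟩
  · rintro _ ⟨x, rfl⟩
    exact ⟨⟨φ true x, x, rfl⟩, glue_apply φ hinj x⟩

/-- if the pushout has no maximal subgroup, neither has the quotient of the free product -/
theorem quot_no_coatom (h : ∀ M : Subgroup (Monoid.PushoutI φ), ¬ IsCoatom M)
    (M : Subgroup (GenFreeProduct (φ true).range (glue φ hinj))) : ¬ IsCoatom M := by
  intro hM
  let N := amalgKernel (φ true).range (glue φ hinj)
  let π : Monoid.Coprod (G true) (G false) →* Monoid.Coprod (G true) (G false) ⧸ N :=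
    QuotientGroup.mk' N
  let f : ∀ i, G i →* Monoid.Coprod (G true) (G false) ⧸ N := fun i =>
    match i with
    | true => π.comp Monoid.Coprod.inl
    | false => π.comp Monoid.Coprod.inr
  have hf : ∀ i, (f i).comp (φ i) = (f true).comp (φ true) := by
    intro i
    cases i with
    | true => rfl
    | false =>
      ext x
      show π (Monoid.Coprod.inr (φ false x)) = π (Monoid.Coprod.inl (φ true x))
      have hx : (Monoid.Coprod.inl (φ true x))⁻¹ * Monoid.Coprod.inr (φ false x) ∈ N :=
        Subgroup.subset_normalClosure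
          ⟨⟨φ true x, x, rfl⟩, by rw [glue_apply]⟩
      exact ((QuotientGroup.eq (s := N)).mpr hx).symm
  let F : Monoid.PushoutI φ →* Monoid.Coprod (G true) (G false) ⧸ N :=
    Monoid.PushoutI.lift f ((f true).comp (φ true)) hf
  have hF : Function.Surjective F := by
    intro y
    obtain ⟨w, rfl⟩ := QuotientGroup.mk'_surjective N y
    have hr : F.range.comap π = ⊤ := by
      rw [eq_top_iff, ← Monoid.Coprod.range_inl_sup_range_inr]
      refine sup_le ?_ ?_
      · rintro _ ⟨a, rfl⟩
        exact ⟨Monoid.PushoutI.of true a, by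
          show Monoid.PushoutI.lift f _ hf _ = _
          rw [Monoid.PushoutI.lift_of]; rfl⟩
      · rintro _ ⟨a, rfl⟩
        exact ⟨Monoid.PushoutI.of false a, by
          show Monoid.PushoutI.lift f _ hf _ = _
          rw [Monoid.PushoutI.lift_of]; rfl⟩
    have : w ∈ F.range.comap π := by rw [hr]; trivial
    exact this
  exact h _ (Subgroup.isCoatom_comap_of_surjective hF hM)

end quot

/-- without maximal subgroups no proper subgroup generates the group with finitely many elements -/
theorem eq_top_of_finite {Q : Type} [Group Q] (h : ∀ M : Subgroup Q, ¬ IsCoatom M)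
    (M : Subgroup Q) (S : Set Q) (hS : S.Finite) (hMS : M ⊔ Subgroup.closure S = ⊤) : M = ⊤ := by
  by_contra hne
  obtain ⟨K, hMK, hK⟩ : ∃ K : Subgroup Q, M ≤ K ∧ Maximal (fun K : Subgroup Q => ¬ S ⊆ K) K := by
    obtain ⟨K, hK1, hK2⟩ := zorn_le_nonempty₀ {K : Subgroup Q | ¬ S ⊆ (K : Set Q)} (by
      intro c hc hchain K0 hK0
      have hdir : DirectedOn (· ≤ ·) c := hchain.directedOn
      refine ⟨sSup c, ?_, fun z hz => le_sSup hz⟩
      intro hsub
      obtain ⟨L, hL, hLS⟩ := DirectedOn.exists_mem_subset_of_finset_subset_biUnion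
        (f := fun K : Subgroup Q => (K : Set Q)) (c := c) ⟨K0, hK0⟩ hdir (s := hS.toFinset) (by
          intro s hs
          rw [Set.Finite.coe_toFinset] at hs
          obtain ⟨K, hK, hsK⟩ := (Subgroup.mem_sSup_of_directedOn ⟨K0, hK0⟩ hdir).mp (hsub hs)
          exact Set.mem_biUnion hK hsK)
      rw [Set.Finite.coe_toFinset] at hLS
      exact hc hL hLS) M (by
      intro hsub
      apply hne
      rw [← hMS, eq_comm, sup_eq_left]
      exact (Subgroup.closure_le M).mpr hsub)
    exact ⟨K, hK1, hK2⟩
  refine h K ⟨?_, ?_⟩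
  · rintro rfl
    exact hK.prop (fun s _ => trivial)
  · intro L hL
    by_contra hLt
    have h1 : ¬ (¬ S ⊆ (L : Set Q)) := fun hc => hL.not_ge (hK.le_of_ge hc hL.le)
    rw [not_not] at h1
    apply hLt
    rw [eq_top_iff, ← hMS]
    exact sup_le (hMK.trans hL.le) ((Subgroup.closure_le L).mpr h1)

open Cardinal in
/-- the groups of the amalgam have at most the cardinality of the continuum -/
theorem mk_Sg_le {G : Type} [Group G] [Countable G] (D : Chain G) (A B : Subgroup G)
    (hA : ∀ k, D.E k ≤ A) (hB : ∀ k, D.E k ≤ B) (i : Bool) :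
    Cardinal.mk (Sg D A B hA hB i) ≤ Cardinal.continuum := by
  have h1 : Function.Injective (fun x : Sg D A B hA hB i => (x.1.left, x.1.right)) := by
    intro x y hxy
    apply Subtype.ext
    apply SemidirectProduct.ext
    · exact congrArg Prod.fst hxy
    · exact congrArg Prod.snd hxy
  have h2 := Cardinal.mk_le_of_injective h1
  refine h2.trans ?_
  rw [Cardinal.mk_prod, Cardinal.lift_id, Cardinal.lift_id]
  have h3 : Cardinal.mk G ≤ Cardinal.continuum :=
    (Cardinal.mk_le_aleph0 (α := G)).trans Cardinal.aleph0_le_continuum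
  have h4 : Cardinal.mk (∀ k, D.E k) ≤ Cardinal.continuum := by
    rw [Cardinal.mk_pi]
    refine (Cardinal.prod_le_prod _ (fun _ : ℕ => Cardinal.aleph0) fun k =>
      Cardinal.mk_le_aleph0).trans ?_
    rw [Cardinal.prod_const]
    simp
  calc Cardinal.mk G * Cardinal.mk (∀ k, D.E k) ≤ Cardinal.continuum * Cardinal.continuum :=
        mul_le_mul' h3 h4
    _ = Cardinal.continuum := Cardinal.continuum_mul_self

end Pool.Agent.Helper22.AMX
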