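import Pool.Agent.Helper62.Amal.Reduction

/-!
The amalgam of the reduction of `Helper62.Amal.Reduction` explicitly: it has no maximal subgroup and
the amalgamated subgroup has countable index in both factors.
-/

set_option autoImplicit false

namespace Pool.Agent.Helper22.AMX

open Pool.Agent.Helper62.Amal

variable {G : Type} [Group G] (D : Chain G) (A B : Subgroup G)
  (hA : ∀ k, D.E k ≤ A) (hB : ∀ k, D.E k ≤ B)

/-- explicit form of `reduction2` -/
theorem push_no_coatom [Countable G] (hgen : A ⊔ B = ⊤)
    (huniv : IsAmalgam A B)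
    (hd : ∀ k0 (M : Subgroup G), (∀ k ≥ k0, D.E k ≤ M) → ¬ IsCoatom M)
    (he : ∀ n > 0, ∀ x, ∃ y, y ^ n * x⁻¹ ∈ commutator G ⊔ ⨆ k, D.E k)
    (M : Subgroup (Monoid.PushoutI (φg D A B hA hB))) : ¬ IsCoatom M := by
  set P := Monoid.PushoutI (φg D A B hA hB) with hP
  -- the embeddings
  let oA : Sg D A B hA hB true →* P := Monoid.PushoutI.of (φ := φg D A B hA hB) true
  let oB : Sg D A B hA hB false →* P := Monoid.PushoutI.of (φ := φg D A B hA hB) false
  let o0 : Hg D A B hA hB →* P := Monoid.PushoutI.base (φg D A B hA hB)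
  have oA0 : ∀ x : Hg D A B hA hB, oA (φg D A B hA hB true x) = o0 x := fun x =>
    Monoid.PushoutI.of_apply_eq_base (φg D A B hA hB) true x
  have oB0 : ∀ x : Hg D A B hA hB, oB (φg D A B hA hB false x) = o0 x := fun x =>
    Monoid.PushoutI.of_apply_eq_base (φg D A B hA hB) false x
  let fA : A →* P := oA.comp
    { toFun := fun a => (⟨SemidirectProduct.inl (a : G), a.2⟩ : Sg D A B hA hB true)
      map_one' := by apply Subtype.ext; simp
      map_mul' := fun a b => by apply Subtype.ext; simp }
  let fB : B →* P := oB.comp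
    { toFun := fun a => (⟨SemidirectProduct.inl (a : G), a.2⟩ : Sg D A B hA hB false)
      map_one' := by apply Subtype.ext; simp
      map_mul' := fun a b => by apply Subtype.ext; simp }
  obtain ⟨j, hjA, hjB⟩ := huniv P fA fB (by
    intro x hxA hxB
    have h1 := oA0 ⟨SemidirectProduct.inl x, ⟨hxA, hxB⟩⟩
    have h2 := oB0 ⟨SemidirectProduct.inl x, ⟨hxA, hxB⟩⟩
    exact h1.trans h2.symm)
  let s : (∀ k, D.E k) →* P := o0.comp
    { toFun := fun u => (⟨SemidirectProduct.inr u, (A ⊓ B).one_mem⟩ : Hg D A B hA hB)
      map_one' := by apply Subtype.ext; simp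
      map_mul' := fun a b => by apply Subtype.ext; simp }
  have hsA : ∀ u : ∀ k, D.E k,
      s u = oA ⟨SemidirectProduct.inr u, A.one_mem⟩ := fun u => (oA0 _).symm
  have hsB : ∀ u : ∀ k, D.E k,
      s u = oB ⟨SemidirectProduct.inr u, B.one_mem⟩ := fun u => (oB0 _).symm
  have hjA' : ∀ a (ha : a ∈ A), j a = oA ⟨SemidirectProduct.inl a, ha⟩ := fun a ha => hjA ⟨a, ha⟩
  have hjB' : ∀ a (ha : a ∈ B), j a = oB ⟨SemidirectProduct.inl a, ha⟩ := fun a ha => hjB ⟨a, ha⟩
  have hrel : ∀ (u : ∀ k, D.E k) (x : G), s u * j x * (s u)⁻¹ = j (D.θ u x) := by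
    intro u
    have hcomp : (MulAut.conj (s u)).toMonoidHom.comp j = j.comp (D.θ u).toMonoidHom := by
      apply MonoidHom.eq_of_eqOn_dense (s := (A : Set G) ∪ B)
      · rw [Subgroup.closure_union, Subgroup.closure_eq, Subgroup.closure_eq, hgen]
      · rintro x (hx | hx)
        · have hx' : D.θ u x ∈ A := by
            rw [D.θ_apply, Chain.af]
            have hp : D.pr u (D.idx x) ∈ A := D.pr_mem _ A _ fun k _ => hA k (u k).2
            exact A.mul_mem (A.mul_mem hp hx) (A.inv_mem hp)
          show s u * j x * (s u)⁻¹ = j (D.θ u x)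
          rw [hsA, hjA' x hx, hjA' _ hx', ← map_mul, ← map_inv, ← map_mul]
          congr 1
          apply Subtype.ext
          show (SemidirectProduct.inr u * SemidirectProduct.inl x * (SemidirectProduct.inr u)⁻¹ :
            SemidirectProduct G (∀ k, D.E k) D.θ) = SemidirectProduct.inl (D.θ u x)
          rw [SemidirectProduct.inl_aut]
          simp
        · have hx' : D.θ u x ∈ B := by
            rw [D.θ_apply, Chain.af]
            have hp : D.pr u (D.idx x) ∈ B := D.pr_mem _ B _ fun k _ => hB k (u k).2
            exact B.mul_mem (B.mul_mem hp hx) (B.inv_mem hp)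
          show s u * j x * (s u)⁻¹ = j (D.θ u x)
          rw [hsB, hjB' x hx, hjB' _ hx', ← map_mul, ← map_inv, ← map_mul]
          congr 1
          apply Subtype.ext
          show (SemidirectProduct.inr u * SemidirectProduct.inl x * (SemidirectProduct.inr u)⁻¹ :
            SemidirectProduct G (∀ k, D.E k) D.θ) = SemidirectProduct.inl (D.θ u x)
          rw [SemidirectProduct.inl_aut]
          simp
    intro x
    exact DFunLike.congr_fun hcomp x
  have h1 : ∀ g : P, ∃ x ē, g = j x * s ē := by
    intro g
    induction g using Monoid.PushoutI.induction_on with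
    | of i g =>
      obtain ⟨g, hg⟩ := g
      cases i
      · refine ⟨g.left, g.right, ?_⟩
        rw [hsB, hjB' _ hg, ← map_mul]
        show oB _ = _
        congr 1
        apply Subtype.ext
        show g = SemidirectProduct.inl g.left * SemidirectProduct.inr g.right
        rw [SemidirectProduct.inl_left_mul_inr_right]
      · refine ⟨g.left, g.right, ?_⟩
        rw [hsA, hjA' _ hg, ← map_mul]
        show oA _ = _
        congr 1
        apply Subtype.ext
        show g = SemidirectProduct.inl g.left * SemidirectProduct.inr g.right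
        rw [SemidirectProduct.inl_left_mul_inr_right]
    | base g =>
      obtain ⟨g, hg⟩ := g
      refine ⟨g.left, g.right, ?_⟩
      have := oA0 ⟨g, hg⟩
      show o0 _ = _
      rw [← this, hsA, hjA' _ hg.1, ← map_mul]
      congr 1
      apply Subtype.ext
      show g = SemidirectProduct.inl g.left * SemidirectProduct.inr g.right
      rw [SemidirectProduct.inl_left_mul_inr_right]
    | mul a b ha hb =>
      obtain ⟨x, u, rfl⟩ := ha
      obtain ⟨y, v, rfl⟩ := hb
      refine ⟨x * D.θ u y, u * v, ?_⟩
      rw [map_mul, map_mul, ← hrel u y]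
      group
  let DD : Data G P :=
    { Γ := D.Γ
      mono := D.mono
      cover := D.cover
      E := D.E
      hEΓ := D.hEΓ
      comm := D.comm
      ab := D.ab
      div := D.div
      j := j
      s := s
      h1 := h1
      h2 := by
        intro m x hx u hu
        have := hrel u x
        rw [D.θ_apply, D.af_eq u x m hx, D.pr_eq_one u m hu] at this
        rw [mul_inv_eq_iff_eq_mul] at this
        rw [this]; simp
      h3 := by
        intro k e x
        have := hrel (Pi.mulSingle k e) x
        rw [D.θ_apply, D.af_single] at this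
        rw [← this]; simp }
  exact DD.no_coatom he hd M

theorem not_surj_true (hAB : ¬ A ≤ B) : ¬ Function.Surjective (φg D A B hA hB true) := by
  intro hi
  apply hAB
  intro b hb
  obtain ⟨⟨x, hx⟩, hx'⟩ := hi ⟨SemidirectProduct.inl b, hb⟩
  have h1 := congrArg Subtype.val hx'
  have h2 : x = SemidirectProduct.inl b := h1
  rw [h2] at hx
  exact hx.2

theorem not_surj_false (hBA : ¬ B ≤ A) : ¬ Function.Surjective (φg D A B hA hB false) := by
  intro hi
  apply hBA
  intro b hb
  obtain ⟨⟨x, hx⟩, hx'⟩ := hi ⟨SemidirectProduct.inl b, hb⟩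
  have h1 := congrArg Subtype.val hx'
  have h2 : x = SemidirectProduct.inl b := h1
  rw [h2] at hx
  exact hx.1

/-- the index of the amalgamated subgroup is countable -/
theorem idx_countable [Countable G] (i : Bool) :
    Countable (Sg D A B hA hB i ⧸ (φg D A B hA hB i).range) := by
  apply Function.Injective.countable
    (f := fun q : Sg D A B hA hB i ⧸ (φg D A B hA hB i).range => (q.out).1.left)
  intro q q' h
  rw [← QuotientGroup.out_eq' q, ← QuotientGroup.out_eq' q', QuotientGroup.eq]
  set g := q.out
  set g' := q'.out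
  have hl : ((g⁻¹ * g' : Sg D A B hA hB i) : SemidirectProduct G (∀ k, D.E k) D.θ).left = 1 := by
    show D.θ (g.1.right⁻¹) (g.1.left⁻¹) * D.θ (g.1.right⁻¹) g'.1.left = 1
    have h' : g.1.left = g'.1.left := h
    rw [← map_mul, h', inv_mul_cancel, map_one]
  refine ⟨⟨(g⁻¹ * g' : Sg D A B hA hB i), ?_⟩, ?_⟩
  · show ((g⁻¹ * g' : Sg D A B hA hB i) : SemidirectProduct G (∀ k, D.E k) D.θ).left ∈ A ⊓ B
    rw [hl]
    exact (A ⊓ B).one_mem
  · rfl

end Pool.Agent.Helper22.AMX
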